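import Pool.Agent.E8helper27.Sow.Defs

/-!
Project SW (MP_58e104_co), piece SUM: values of Sowing positions are closed under sums.
-/

set_option autoImplicit false

namespace Pool.Agent.E8helper67.Sow

open SowingH27

section abstract

variable {α β γ : Type}

/-- the arena with the players exchanged -/
def op (A : Arena α) : Arena α where
  L := A.R
  R := A.L

lemma rightSecond_iff (A : Arena α) (n : ℕ) (x : α) : A.RightSecond n x ↔ (op A).LeftSecond n x := by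
  induction n generalizing x with
  | zero => exact Iff.rfl
  | succ n ih =>
    simp only [Arena.RightSecond, Arena.LeftSecond]
    constructor
    · intro h y hy
      obtain ⟨z, hz, h'⟩ := h y hy
      exact ⟨z, hz, (ih z).1 h'⟩
    · intro h y hy
      obtain ⟨z, hz, h'⟩ := h y hy
      exact ⟨z, hz, (ih z).2 h'⟩

lemma sim (A : Arena α) (B : Arena β) (Rel : α → β → Prop)
    (h1 : ∀ x u v, Rel x u → B.R u v → ∃ y, A.R x y ∧ Rel y v)
    (h2 : ∀ x u y, Rel x u → A.L x y → ∃ v, B.L u v ∧ Rel y v) :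
    ∀ n x u, Rel x u → A.LeftSecond n x → B.LeftSecond n u := by
  intro n
  induction n with
  | zero =>
    intro x u hr h v hv
    obtain ⟨y, hy, -⟩ := h1 x u v hr hv
    exact h y hy
  | succ n ih =>
    intro x u hr h v hv
    obtain ⟨y, hy, hr'⟩ := h1 x u v hr hv
    obtain ⟨z, hz, hs⟩ := h y hy
    obtain ⟨w, hw, hr''⟩ := h2 y v z hr' hz
    exact ⟨w, hw, ih z w hr'' hs⟩

lemma sum (A : Arena α) (B : Arena β) (C : Arena γ) (Rel : α → β → γ → Prop)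
    (h1 : ∀ x y z w, Rel x y z → C.R z w →
      (∃ x', A.R x x' ∧ Rel x' y w) ∨ (∃ y', B.R y y' ∧ Rel x y' w))
    (h2 : ∀ x y z x', Rel x y z → A.L x x' → ∃ w, C.L z w ∧ Rel x' y w)
    (h3 : ∀ x y z y', Rel x y z → B.L y y' → ∃ w, C.L z w ∧ Rel x y' w) :
    ∀ N m n x y z, m + n = N → Rel x y z → A.LeftSecond m x → B.LeftSecond n y →
      C.LeftSecond N z := by
  intro N
  induction N with
  | zero =>
    intro m n x y z hN hr hm hn w hw
    obtain rfl : m = 0 := by omega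
    obtain rfl : n = 0 := by omega
    rcases h1 x y z w hr hw with ⟨x', hx, -⟩ | ⟨y', hy, -⟩
    · exact hm x' hx
    · exact hn y' hy
  | succ N ih =>
    intro m n x y z hN hr hm hn w hw
    rcases h1 x y z w hr hw with ⟨x', hx, hr'⟩ | ⟨y', hy, hr'⟩
    · cases m with
      | zero => exact absurd hx (hm x')
      | succ m =>
        obtain ⟨x'', hx', hm'⟩ := hm x' hx
        obtain ⟨w', hw', hr''⟩ := h2 x' y w x'' hr' hx'
        exact ⟨w', hw', ih m n x'' y w' (by omega) hr'' hm' hn⟩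
    · cases n with
      | zero => exact absurd hy (hn y')
      | succ n =>
        obtain ⟨y'', hy', hn'⟩ := hn y' hy
        obtain ⟨w', hw', hr''⟩ := h3 x y' w y'' hr' hy'
        exact ⟨w', hw', ih m n x y'' w' (by omega) hr'' hm hn'⟩

end abstract

/-- a move, with the set `T` of the pots which get a seed -/
def sow (p : ℤ → ℕ) (i : ℤ) (T : Finset ℤ) : ℤ → ℕ :=
  fun j => if j = i then 0 else if j ∈ T then p j + 1 else p j

lemma sowRight_eq (p : ℤ → ℕ) (i : ℤ) : sowRight p i = sow p i (Finset.Ioc i (i + p i)) := by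
  funext j
  simp [sowRight, sow, Finset.mem_Ioc]

lemma sowLeft_eq (p : ℤ → ℕ) (i : ℤ) : sowLeft p i = sow p i (Finset.Ico (i - p i) i) := by
  funext j
  simp [sowLeft, sow, Finset.mem_Ico]

lemma sow_add_left (p q : ℤ → ℕ) (i : ℤ) (T : Finset ℤ) (hq : q i = 0) :
    sow (p + q) i T = sow p i T + q := by
  funext j
  simp only [sow, Pi.add_apply]
  by_cases hj : j = i
  · subst hj; simp [hq]
  · by_cases hT : j ∈ T
    · simp only [hj, hT, if_true, if_false]; omega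
    · simp only [hj, hT, if_false]

lemma sow_add_right (p q : ℤ → ℕ) (i : ℤ) (T : Finset ℤ) (hp : p i = 0) :
    sow (p + q) i T = p + sow q i T := by
  rw [add_comm p q, sow_add_left q p i T hp, add_comm]

/-- `p` lives on `[a, b]` and has at most `S` seeds -/
def In (p : ℤ → ℕ) (a b : ℤ) (S : ℕ) : Prop :=
  (∀ j, p j ≠ 0 → a ≤ j ∧ j ≤ b) ∧ ∑ j ∈ Finset.Icc a b, p j ≤ S

lemma In.le {p : ℤ → ℕ} {a b : ℤ} {S : ℕ} (h : In p a b S) (j : ℤ) : p j ≤ S := by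
  by_cases hj : p j = 0
  · omega
  · exact (Finset.single_le_sum (f := p) (fun _ _ => Nat.zero_le _)
      (Finset.mem_Icc.2 (h.1 j hj))).trans h.2

lemma In.sow {p : ℤ → ℕ} {a b : ℤ} {S : ℕ} {i : ℤ} {T : Finset ℤ} (h : In p a b S) (hi : p i ≠ 0)
    (hT : ∀ j ∈ T, a ≤ j ∧ j ≤ b) (hc : T.card ≤ p i) : In (sow p i T) a b S := by
  refine ⟨?_, ?_⟩
  · intro j hj
    by_cases h1 : j = i
    · subst h1; exact h.1 _ hi
    · by_cases h2 : j ∈ T
      · exact hT j h2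
      · apply h.1
        simpa [Sow.sow, h1, h2] using hj
  · refine le_trans ?_ h.2
    have hmem : i ∈ Finset.Icc a b := Finset.mem_Icc.2 (h.1 i hi)
    calc ∑ j ∈ Finset.Icc a b, Sow.sow p i T j
        ≤ ∑ j ∈ Finset.Icc a b, ((if j = i then 0 else p j) + (if j ∈ T then 1 else 0)) := by
          apply Finset.sum_le_sum
          intro j _
          unfold Sow.sow
          split_ifs <;> omega
      _ = ∑ j ∈ Finset.Icc a b, (if j = i then 0 else p j) +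
            ∑ j ∈ Finset.Icc a b, (if j ∈ T then 1 else 0) := Finset.sum_add_distrib
      _ ≤ ∑ j ∈ Finset.Icc a b, (if j = i then 0 else p j) + p i := by
          gcongr
          rw [← Finset.card_filter]
          refine le_trans (Finset.card_le_card ?_) hc
          intro j hj
          exact (Finset.mem_filter.1 hj).2
      _ = ∑ j ∈ Finset.Icc a b, p j := by
          rw [← Finset.add_sum_erase _ (fun j => if j = i then 0 else p j) hmem,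
            ← Finset.add_sum_erase _ p hmem]
          simp only [if_true, zero_add]
          rw [add_comm]
          congr 1
          apply Finset.sum_congr rfl
          intro j hj
          rw [if_neg (Finset.ne_of_mem_erase hj)]

lemma In.sowRight {p : ℤ → ℕ} {a b : ℤ} {S : ℕ} {i : ℤ} (h : In p a b S) (hi : p i ≠ 0)
    (hl : p (i + p i) ≠ 0) : In (sowRight p i) a b S := by
  rw [sowRight_eq]
  apply h.sow hi
  · intro j hj
    have h1 := h.1 _ hi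
    have h2 := h.1 _ hl
    rw [Finset.mem_Ioc] at hj
    omega
  · simp

lemma In.sowLeft {p : ℤ → ℕ} {a b : ℤ} {S : ℕ} {i : ℤ} (h : In p a b S) (hi : p i ≠ 0)
    (hl : p (i - p i) ≠ 0) : In (sowLeft p i) a b S := by
  rw [sowLeft_eq]
  apply h.sow hi
  · intro j hj
    have h1 := h.1 _ hi
    have h2 := h.1 _ hl
    rw [Finset.mem_Ico] at hj
    omega
  · simp

/-- `p` and `q` are far from each other -/
def Far (p q : ℤ → ℕ) : Prop :=
  ∃ (a b c d : ℤ) (S : ℕ), In p a b S ∧ In q c d S ∧ b + S < c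

section
variable {p q r : ℤ → ℕ}

lemma zero_of {p : ℤ → ℕ} {a b : ℤ} {S : ℕ} (h : In p a b S) {j : ℤ} (hj : j < a ∨ b < j) :
    p j = 0 := by
  by_contra h0
  have := h.1 j h0
  omega

lemma decL (h : Far p q) (hm : sowing.L (p + q) r) :
    (∃ p', sowing.L p p' ∧ Far p' q ∧ r = p' + q) ∨
      (∃ q', sowing.L q q' ∧ Far p q' ∧ r = p + q') := by
  obtain ⟨a, b, c, d, S, hp, hq, hbc⟩ := h
  obtain ⟨i, hi, hl, rfl⟩ := hm
  simp only [Pi.add_apply] at hi hl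
  by_cases h0 : p i = 0
  · right
    have hqi : q i ≠ 0 := by omega
    have h1 := hq.1 i hqi
    have h2 : q (i + q i) ≠ 0 := by
      have h3 : p (i + q i) = 0 := zero_of hp (Or.inr (by omega))
      rw [h0, zero_add, h3] at hl
      omega
    refine ⟨SowingH27.sowRight q i, ⟨i, hqi, h2, rfl⟩, ⟨a, b, c, d, S, hp, hq.sowRight hqi h2, hbc⟩, ?_⟩
    rw [sowRight_eq, sowRight_eq, sow_add_right _ _ _ _ h0]
    simp [h0]
  · left
    have h1 := hp.1 i h0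
    have h2 : q i = 0 := zero_of hq (Or.inl (by omega))
    have h3 := hp.le i
    have h4 : p (i + p i) ≠ 0 := by
      have h5 : q (i + p i) = 0 := zero_of hq (Or.inl (by omega))
      rw [h2, add_zero, h5] at hl
      omega
    refine ⟨SowingH27.sowRight p i, ⟨i, h0, h4, rfl⟩, ⟨a, b, c, d, S, hp.sowRight h0 h4, hq, hbc⟩, ?_⟩
    rw [sowRight_eq, sowRight_eq, sow_add_left _ _ _ _ h2]
    simp [h2]

lemma decR (h : Far p q) (hm : sowing.R (p + q) r) :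
    (∃ p', sowing.R p p' ∧ Far p' q ∧ r = p' + q) ∨
      (∃ q', sowing.R q q' ∧ Far p q' ∧ r = p + q') := by
  obtain ⟨a, b, c, d, S, hp, hq, hbc⟩ := h
  obtain ⟨i, hi, hl, rfl⟩ := hm
  simp only [Pi.add_apply] at hi hl
  by_cases h0 : p i = 0
  · right
    have hqi : q i ≠ 0 := by omega
    have h1 := hq.1 i hqi
    have h3 := hq.le i
    have h2 : q (i - q i) ≠ 0 := by
      have h3 : p (i - q i) = 0 := zero_of hp (Or.inr (by omega))
      rw [h0, zero_add, h3] at hl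
      omega
    refine ⟨SowingH27.sowLeft q i, ⟨i, hqi, h2, rfl⟩, ⟨a, b, c, d, S, hp, hq.sowLeft hqi h2, hbc⟩, ?_⟩
    rw [sowLeft_eq, sowLeft_eq, sow_add_right _ _ _ _ h0]
    simp [h0]
  · left
    have h1 := hp.1 i h0
    have h2 : q i = 0 := zero_of hq (Or.inl (by omega))
    have h4 : p (i - p i) ≠ 0 := by
      have h5 : q (i - p i) = 0 := zero_of hq (Or.inl (by omega))
      rw [h2, add_zero, h5] at hl
      omega
    refine ⟨SowingH27.sowLeft p i, ⟨i, h0, h4, rfl⟩, ⟨a, b, c, d, S, hp.sowLeft h0 h4, hq, hbc⟩, ?_⟩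
    rw [sowLeft_eq, sowLeft_eq, sow_add_left _ _ _ _ h2]
    simp [h2]

lemma comL1 (h : Far p q) (hm : sowing.L p r) : sowing.L (p + q) (r + q) ∧ Far r q := by
  obtain ⟨a, b, c, d, S, hp, hq, hbc⟩ := h
  obtain ⟨i, hi, hl, rfl⟩ := hm
  have h1 := hp.1 i hi
  have h2 : q i = 0 := zero_of hq (Or.inl (by omega))
  refine ⟨⟨i, ?_, ?_, ?_⟩, ⟨a, b, c, d, S, hp.sowRight hi hl, hq, hbc⟩⟩
  · simp only [Pi.add_apply]; omega
  · simp only [Pi.add_apply, h2, add_zero]; omega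
  · rw [sowRight_eq, sowRight_eq, sow_add_left _ _ _ _ h2]
    simp [h2]

lemma comL2 (h : Far p q) (hm : sowing.L q r) : sowing.L (p + q) (p + r) ∧ Far p r := by
  obtain ⟨a, b, c, d, S, hp, hq, hbc⟩ := h
  obtain ⟨i, hi, hl, rfl⟩ := hm
  have h1 := hq.1 i hi
  have h2 : p i = 0 := zero_of hp (Or.inr (by omega))
  refine ⟨⟨i, ?_, ?_, ?_⟩, ⟨a, b, c, d, S, hp, hq.sowRight hi hl, hbc⟩⟩
  · simp only [Pi.add_apply]; omega
  · simp only [Pi.add_apply, h2, zero_add]; omega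
  · rw [sowRight_eq, sowRight_eq, sow_add_right _ _ _ _ h2]
    simp [h2]

lemma comR1 (h : Far p q) (hm : sowing.R p r) : sowing.R (p + q) (r + q) ∧ Far r q := by
  obtain ⟨a, b, c, d, S, hp, hq, hbc⟩ := h
  obtain ⟨i, hi, hl, rfl⟩ := hm
  have h1 := hp.1 i hi
  have h2 : q i = 0 := zero_of hq (Or.inl (by omega))
  refine ⟨⟨i, ?_, ?_, ?_⟩, ⟨a, b, c, d, S, hp.sowLeft hi hl, hq, hbc⟩⟩
  · simp only [Pi.add_apply]; omega
  · simp only [Pi.add_apply, h2, add_zero]; omega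
  · rw [sowLeft_eq, sowLeft_eq, sow_add_left _ _ _ _ h2]
    simp [h2]

lemma comR2 (h : Far p q) (hm : sowing.R q r) : sowing.R (p + q) (p + r) ∧ Far p r := by
  obtain ⟨a, b, c, d, S, hp, hq, hbc⟩ := h
  obtain ⟨i, hi, hl, rfl⟩ := hm
  have h1 := hq.1 i hi
  have h2 : p i = 0 := zero_of hp (Or.inr (by omega))
  refine ⟨⟨i, ?_, ?_, ?_⟩, ⟨a, b, c, d, S, hp, hq.sowLeft hi hl, hbc⟩⟩
  · simp only [Pi.add_apply]; omega
  · simp only [Pi.add_apply, h2, zero_add]; omega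
  · rw [sowLeft_eq, sowLeft_eq, sow_add_right _ _ _ _ h2]
    simp [h2]

end

/-! ### the games -/

lemma split_append {Gs Hs a b : List Game} {G : Game} (h : Gs ++ Hs = a ++ G :: b) :
    (∃ b', Gs = a ++ G :: b' ∧ b = b' ++ Hs) ∨ (∃ a', Hs = a' ++ G :: b ∧ a = Gs ++ a') := by
  rw [List.append_eq_append_iff] at h
  rcases h with ⟨a', h1, h2⟩ | ⟨c', h1, h2⟩
  · exact Or.inr ⟨a', h2, h1⟩
  · cases c' with
    | nil =>
      right
      refine ⟨[], ?_, ?_⟩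
      · simpa using h2.symm
      · simpa using h1.symm
    | cons x xs =>
      left
      rw [List.cons_append, List.cons.injEq] at h2
      obtain ⟨rfl, rfl⟩ := h2
      exact ⟨xs, h1, rfl⟩

lemma gdecL {Gs Hs K : List Game} (h : games.L (Gs ++ Hs) K) :
    (∃ Gs', games.L Gs Gs' ∧ K = Gs' ++ Hs) ∨ (∃ Hs', games.L Hs Hs' ∧ K = Gs ++ Hs') := by
  obtain ⟨a, G, b, H, h1, h2, rfl⟩ := h
  rcases split_append h1 with ⟨b', rfl, rfl⟩ | ⟨a', rfl, rfl⟩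
  · exact Or.inl ⟨a ++ H :: b', ⟨a, G, b', H, rfl, h2, rfl⟩, by simp⟩
  · exact Or.inr ⟨a' ++ H :: b, ⟨a', G, b, H, rfl, h2, rfl⟩, by simp⟩

lemma gdecR {Gs Hs K : List Game} (h : games.R (Gs ++ Hs) K) :
    (∃ Gs', games.R Gs Gs' ∧ K = Gs' ++ Hs) ∨ (∃ Hs', games.R Hs Hs' ∧ K = Gs ++ Hs') := by
  obtain ⟨a, G, b, H, h1, h2, rfl⟩ := h
  rcases split_append h1 with ⟨b', rfl, rfl⟩ | ⟨a', rfl, rfl⟩
  · exact Or.inl ⟨a ++ H :: b', ⟨a, G, b', H, rfl, h2, rfl⟩, by simp⟩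
  · exact Or.inr ⟨a' ++ H :: b, ⟨a', G, b, H, rfl, h2, rfl⟩, by simp⟩

lemma gL1 {Gs Gs' : List Game} (Hs : List Game) (h : games.L Gs Gs') :
    games.L (Gs ++ Hs) (Gs' ++ Hs) := by
  obtain ⟨a, G, b, H, rfl, h2, rfl⟩ := h
  exact ⟨a, G, b ++ Hs, H, by simp, h2, by simp⟩

lemma gL2 {Hs Hs' : List Game} (Gs : List Game) (h : games.L Hs Hs') :
    games.L (Gs ++ Hs) (Gs ++ Hs') := by
  obtain ⟨a, G, b, H, rfl, h2, rfl⟩ := h
  exact ⟨Gs ++ a, G, b, H, by simp, h2, by simp⟩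

lemma gR1 {Gs Gs' : List Game} (Hs : List Game) (h : games.R Gs Gs') :
    games.R (Gs ++ Hs) (Gs' ++ Hs) := by
  obtain ⟨a, G, b, H, rfl, h2, rfl⟩ := h
  exact ⟨a, G, b ++ Hs, H, by simp, h2, by simp⟩

lemma gR2 {Hs Hs' : List Game} (Gs : List Game) (h : games.R Hs Hs') :
    games.R (Gs ++ Hs) (Gs ++ Hs') := by
  obtain ⟨a, G, b, H, rfl, h2, rfl⟩ := h
  exact ⟨Gs ++ a, G, b, H, by simp, h2, by simp⟩

/-! ### the compound -/

/-- the arena of the differences -/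
abbrev D : Arena ((ℤ → ℕ) × List Game) := sowing.sub games

/-- `z` is the sum of `x` and `y` -/
def Rel (x y z : (ℤ → ℕ) × List Game) : Prop :=
  Far x.1 y.1 ∧ z = (x.1 + y.1, x.2 ++ y.2)

lemma relR (x y z w : (ℤ → ℕ) × List Game) (h : Rel x y z) (hm : D.R z w) :
    (∃ x', D.R x x' ∧ Rel x' y w) ∨ (∃ y', D.R y y' ∧ Rel x y' w) := by
  obtain ⟨hf, rfl⟩ := h
  obtain ⟨w1, w2⟩ := w
  rcases hm with ⟨h1, h2⟩ | ⟨h1, h2⟩
  · simp only at h1 h2
    subst h2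
    rcases decR hf h1 with ⟨p', h3, h4, h5⟩ | ⟨q', h3, h4, h5⟩
    · exact Or.inl ⟨(p', x.2), Or.inl ⟨h3, rfl⟩, h4, by rw [h5]⟩
    · exact Or.inr ⟨(q', y.2), Or.inl ⟨h3, rfl⟩, h4, by rw [h5]⟩
  · simp only at h1 h2
    subst h1
    rcases gdecL h2 with ⟨G', h3, h4⟩ | ⟨H', h3, h4⟩
    · exact Or.inl ⟨(x.1, G'), Or.inr ⟨rfl, h3⟩, hf, by rw [h4]⟩
    · exact Or.inr ⟨(y.1, H'), Or.inr ⟨rfl, h3⟩, hf, by rw [h4]⟩

lemma relL (x y z w : (ℤ → ℕ) × List Game) (h : Rel x y z) (hm : D.L z w) :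
    (∃ x', D.L x x' ∧ Rel x' y w) ∨ (∃ y', D.L y y' ∧ Rel x y' w) := by
  obtain ⟨hf, rfl⟩ := h
  obtain ⟨w1, w2⟩ := w
  rcases hm with ⟨h1, h2⟩ | ⟨h1, h2⟩
  · simp only at h1 h2
    subst h2
    rcases decL hf h1 with ⟨p', h3, h4, h5⟩ | ⟨q', h3, h4, h5⟩
    · exact Or.inl ⟨(p', x.2), Or.inl ⟨h3, rfl⟩, h4, by rw [h5]⟩
    · exact Or.inr ⟨(q', y.2), Or.inl ⟨h3, rfl⟩, h4, by rw [h5]⟩
  · simp only at h1 h2
    subst h1
    rcases gdecR h2 with ⟨G', h3, h4⟩ | ⟨H', h3, h4⟩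
    · exact Or.inl ⟨(x.1, G'), Or.inr ⟨rfl, h3⟩, hf, by rw [h4]⟩
    · exact Or.inr ⟨(y.1, H'), Or.inr ⟨rfl, h3⟩, hf, by rw [h4]⟩

lemma relL1 (x y z x' : (ℤ → ℕ) × List Game) (h : Rel x y z) (hm : D.L x x') :
    ∃ w, D.L z w ∧ Rel x' y w := by
  obtain ⟨hf, rfl⟩ := h
  obtain ⟨p', G'⟩ := x'
  rcases hm with ⟨h1, h2⟩ | ⟨h1, h2⟩
  · simp only at h1 h2
    subst h2
    exact ⟨(p' + y.1, x.2 ++ y.2), Or.inl ⟨(comL1 hf h1).1, rfl⟩, (comL1 hf h1).2, rfl⟩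
  · simp only at h1 h2
    subst h1
    exact ⟨(x.1 + y.1, G' ++ y.2), Or.inr ⟨rfl, gR1 _ h2⟩, hf, rfl⟩

lemma relL2 (x y z y' : (ℤ → ℕ) × List Game) (h : Rel x y z) (hm : D.L y y') :
    ∃ w, D.L z w ∧ Rel x y' w := by
  obtain ⟨hf, rfl⟩ := h
  obtain ⟨p', G'⟩ := y'
  rcases hm with ⟨h1, h2⟩ | ⟨h1, h2⟩
  · simp only at h1 h2
    subst h2
    exact ⟨(x.1 + p', x.2 ++ y.2), Or.inl ⟨(comL2 hf h1).1, rfl⟩, (comL2 hf h1).2, rfl⟩
  · simp only at h1 h2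
    subst h1
    exact ⟨(x.1 + y.1, x.2 ++ G'), Or.inr ⟨rfl, gR2 _ h2⟩, hf, rfl⟩

lemma relR1 (x y z x' : (ℤ → ℕ) × List Game) (h : Rel x y z) (hm : D.R x x') :
    ∃ w, D.R z w ∧ Rel x' y w := by
  obtain ⟨hf, rfl⟩ := h
  obtain ⟨p', G'⟩ := x'
  rcases hm with ⟨h1, h2⟩ | ⟨h1, h2⟩
  · simp only at h1 h2
    subst h2
    exact ⟨(p' + y.1, x.2 ++ y.2), Or.inl ⟨(comR1 hf h1).1, rfl⟩, (comR1 hf h1).2, rfl⟩
  · simp only at h1 h2
    subst h1
    exact ⟨(x.1 + y.1, G' ++ y.2), Or.inr ⟨rfl, gL1 _ h2⟩, hf, rfl⟩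

lemma relR2 (x y z y' : (ℤ → ℕ) × List Game) (h : Rel x y z) (hm : D.R y y') :
    ∃ w, D.R z w ∧ Rel x y' w := by
  obtain ⟨hf, rfl⟩ := h
  obtain ⟨p', G'⟩ := y'
  rcases hm with ⟨h1, h2⟩ | ⟨h1, h2⟩
  · simp only at h1 h2
    subst h2
    exact ⟨(x.1 + p', x.2 ++ y.2), Or.inl ⟨(comR2 hf h1).1, rfl⟩, (comR2 hf h1).2, rfl⟩
  · simp only at h1 h2
    subst h1
    exact ⟨(x.1 + y.1, x.2 ++ G'), Or.inr ⟨rfl, gL2 _ h2⟩, hf, rfl⟩

/-! ### shifts -/

/-- the position shifted by `t` -/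
def sh (t : ℤ) (q : ℤ → ℕ) : ℤ → ℕ := fun j => q (j - t)

lemma sh_sowRight (t : ℤ) (q : ℤ → ℕ) (i : ℤ) :
    sh t (SowingH27.sowRight q i) = SowingH27.sowRight (sh t q) (i + t) := by
  funext j
  simp only [sh, SowingH27.sowRight, add_sub_cancel_right]
  have h1 : (j - t = i) = (j = i + t) := by rw [eq_iff_iff]; omega
  have h2 : (i < j - t ∧ j - t ≤ i + (q i : ℤ)) = (i + t < j ∧ j ≤ i + t + (q i : ℤ)) := by
    rw [eq_iff_iff]; omega
  simp only [h1, h2]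

lemma sh_sowLeft (t : ℤ) (q : ℤ → ℕ) (i : ℤ) :
    sh t (SowingH27.sowLeft q i) = SowingH27.sowLeft (sh t q) (i + t) := by
  funext j
  simp only [sh, SowingH27.sowLeft, add_sub_cancel_right]
  have h1 : (j - t = i) = (j = i + t) := by rw [eq_iff_iff]; omega
  have h2 : (i - (q i : ℤ) ≤ j - t ∧ j - t < i) = (i + t - (q i : ℤ) ≤ j ∧ j < i + t) := by
    rw [eq_iff_iff]; omega
  simp only [h1, h2]

lemma shL {t : ℤ} {q r : ℤ → ℕ} (h : sowing.L q r) : sowing.L (sh t q) (sh t r) := by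
  obtain ⟨i, hi, hl, rfl⟩ := h
  refine ⟨i + t, ?_, ?_, sh_sowRight t q i⟩
  · simpa [sh] using hi
  · have : i + t + (q i : ℤ) - t = i + q i := by ring
    simpa [sh, this] using hl

lemma shR {t : ℤ} {q r : ℤ → ℕ} (h : sowing.R q r) : sowing.R (sh t q) (sh t r) := by
  obtain ⟨i, hi, hl, rfl⟩ := h
  refine ⟨i + t, ?_, ?_, sh_sowLeft t q i⟩
  · simpa [sh] using hi
  · have : i + t - (q i : ℤ) - t = i - q i := by ring
    simpa [sh, this] using hl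

lemma sh_sh (t : ℤ) (q : ℤ → ℕ) : sh (-t) (sh t q) = q := by
  funext j; simp [sh]

lemma shL' {t : ℤ} {q r : ℤ → ℕ} (h : sowing.L (sh t q) r) : ∃ q', sowing.L q q' ∧ r = sh t q' := by
  refine ⟨sh (-t) r, ?_, ?_⟩
  · have := shL (t := -t) h
    rwa [sh_sh] at this
  · have := sh_sh (-t) r
    rw [neg_neg] at this
    exact this.symm

lemma shR' {t : ℤ} {q r : ℤ → ℕ} (h : sowing.R (sh t q) r) : ∃ q', sowing.R q q' ∧ r = sh t q' := by
  refine ⟨sh (-t) r, ?_, ?_⟩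
  · have := shR (t := -t) h
    rwa [sh_sh] at this
  · have := sh_sh (-t) r
    rw [neg_neg] at this
    exact this.symm

lemma shD (t : ℤ) (n : ℕ) (q : ℤ → ℕ) (Hs : List Game) (h : D.LeftSecond n (q, Hs)) :
    D.LeftSecond n (sh t q, Hs) := by
  refine sim D D (fun x u => u = (sh t x.1, x.2)) ?_ ?_ n (q, Hs) _ rfl h
  · rintro x u ⟨v1, v2⟩ rfl hm
    rcases hm with ⟨h1, h2⟩ | ⟨h1, h2⟩
    · simp only at h1 h2
      obtain ⟨q', h3, h4⟩ := shR' h1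
      exact ⟨(q', x.2), Or.inl ⟨h3, rfl⟩, by rw [h4, h2]⟩
    · simp only at h1 h2
      exact ⟨(x.1, v2), Or.inr ⟨rfl, h2⟩, by rw [h1]⟩
  · rintro x u ⟨y1, y2⟩ rfl hm
    rcases hm with ⟨h1, h2⟩ | ⟨h1, h2⟩
    · simp only at h1 h2
      exact ⟨(sh t y1, x.2), Or.inl ⟨shL h1, rfl⟩, by rw [h2]⟩
    · simp only at h1 h2
      exact ⟨(sh t x.1, y2), Or.inr ⟨rfl, h2⟩, by rw [h1]⟩

lemma shD' (t : ℤ) (n : ℕ) (q : ℤ → ℕ) (Hs : List Game) (h : D.RightSecond n (q, Hs)) :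
    D.RightSecond n (sh t q, Hs) := by
  rw [rightSecond_iff] at h ⊢
  refine sim (op D) (op D) (fun x u => u = (sh t x.1, x.2)) ?_ ?_ n (q, Hs) _ rfl h
  · rintro x u ⟨v1, v2⟩ rfl hm
    rcases hm with ⟨h1, h2⟩ | ⟨h1, h2⟩
    · simp only at h1 h2
      obtain ⟨q', h3, h4⟩ := shL' h1
      exact ⟨(q', x.2), Or.inl ⟨h3, rfl⟩, by rw [h4, h2]⟩
    · simp only at h1 h2
      exact ⟨(x.1, v2), Or.inr ⟨rfl, h2⟩, by rw [h1]⟩
  · rintro x u ⟨y1, y2⟩ rfl hm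
    rcases hm with ⟨h1, h2⟩ | ⟨h1, h2⟩
    · simp only at h1 h2
      exact ⟨(sh t y1, x.2), Or.inl ⟨shR h1, rfl⟩, by rw [h2]⟩
    · simp only at h1 h2
      exact ⟨(sh t x.1, y2), Or.inr ⟨rfl, h2⟩, by rw [h1]⟩

lemma exists_In (p : ℤ → ℕ) (hp : (Function.support p).Finite) :
    ∃ a b : ℤ, ∀ j, p j ≠ 0 → a ≤ j ∧ j ≤ b := by
  obtain ⟨a, ha⟩ := hp.bddBelow
  obtain ⟨b, hb⟩ := hp.bddAbove
  exact ⟨a, b, fun j hj => ⟨ha hj, hb hj⟩⟩

theorem t_SUM : S_SUM := by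
  intro p q Gs Hs hp hq
  obtain ⟨hpf, ⟨m, hm⟩, ⟨m', hm'⟩⟩ := hp
  obtain ⟨hqf, ⟨n, hn⟩, ⟨n', hn'⟩⟩ := hq
  obtain ⟨a, b, hab⟩ := exists_In p hpf
  obtain ⟨c, d, hcd⟩ := exists_In q hqf
  set S : ℕ := ∑ j ∈ Finset.Icc a b, p j + ∑ j ∈ Finset.Icc c d, q j with hS
  set t : ℤ := b + S + 1 - c with ht
  have hqt : ∀ j, sh t q j ≠ 0 → c + t ≤ j ∧ j ≤ d + t := by
    intro j hj
    have := hcd (j - t) hj
    omega
  have hFar : Far p (sh t q) := by
    refine ⟨a, b, c + t, d + t, S, ⟨hab, by omega⟩, ⟨hqt, ?_⟩, by omega⟩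
    have : ∑ j ∈ Finset.Icc (c + t) (d + t), sh t q j = ∑ j ∈ Finset.Icc c d, q j := by
      rw [← Finset.map_add_right_Icc, Finset.sum_map]
      apply Finset.sum_congr rfl
      intro j _
      simp [sh]
    omega
  have hrel : Rel (p, Gs) (sh t q, Hs) (p + sh t q, Gs ++ Hs) := ⟨hFar, rfl⟩
  refine ⟨p + sh t q, ?_, ⟨m + n, ?_⟩, ⟨m' + n', ?_⟩⟩
  · apply (Set.finite_Icc (min a (c + t)) (max b (d + t))).subset
    intro j hj
    have hj' : p j + sh t q j ≠ 0 := hj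
    rw [Set.mem_Icc, min_le_iff, le_max_iff]
    by_cases h0 : p j = 0
    · have := hqt j (by omega)
      exact ⟨Or.inr this.1, Or.inr this.2⟩
    · have := hab j h0
      exact ⟨Or.inl this.1, Or.inl this.2⟩
  · exact sum D D D Rel relR relL1 relL2 (m + n) m n _ _ _ rfl hrel hm (shD t n q Hs hn)
  · rw [rightSecond_iff]
    exact sum (op D) (op D) (op D) Rel relL relR1 relR2 (m' + n') m' n' _ _ _ rfl hrel
      ((rightSecond_iff D m' _).1 hm') ((rightSecond_iff D n' _).1 (shD' t n' q Hs hn'))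

end Pool.Agent.E8helper67.Sow
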